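import Pool.Agent.helper68.PC.SURJ

/-!
# PC project: TR, the trace formula
-/

namespace Pool.Agent.helper27.PC

open Module Polynomial TensorProduct

/-! ### linear algebra -/

theorem TR_trace {K V W : Type*} [Field K] [AddCommGroup V] [Module K V] [Module.Finite K V]
    [AddCommGroup W] [Module K W] [Module.Finite K W] (ψ : V →ₗ[K] W)
    (hψ : Function.Injective ψ) (f : V →ₗ[K] V) (F : W →ₗ[K] W) (h1 : ∀ x, F (ψ x) = ψ (f x))
    (h2 : ∀ y, F y ∈ LinearMap.range ψ) : LinearMap.trace K W F = LinearMap.trace K V f := by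
  set e := LinearEquiv.ofInjective ψ hψ with he
  set g : W →ₗ[K] V := e.symm.toLinearMap ∘ₗ F.codRestrict (LinearMap.range ψ) h2 with hg
  have hψg : ∀ y, ψ (g y) = F y := by
    intro y
    have h3 : e (g y) = F.codRestrict (LinearMap.range ψ) h2 y := by
      rw [hg]; simp
    have h4 := congrArg Subtype.val h3
    rw [he, LinearEquiv.ofInjective_apply] at h4
    exact h4
  have e1 : F = ψ ∘ₗ g := by
    ext y; exact (hψg y).symm
  have e2 : f = g ∘ₗ ψ := by
    ext x
    apply hψ
    rw [LinearMap.comp_apply, hψg, h1]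
  rw [e1, e2, LinearMap.trace_comp_comm']

theorem TR_trace_mat {K I : Type*} [Field K] [Fintype I] [DecidableEq I] (r : I → I → Prop)
    [∀ i j, Decidable (r i j)] (P Q : Matrix I I K) (F : Matrix I I K →ₗ[K] Matrix I I K)
    (hF : ∀ X i j, F X i j = if r i j then (P * X * Q) i j else 0) :
    LinearMap.trace K _ F = ∑ i, ∑ j, if r i j then P i i * Q j j else 0 := by
  rw [LinearMap.trace_eq_matrix_trace K (Matrix.stdBasis K I I) F, Matrix.trace,
    ← Finset.univ_product_univ, Finset.sum_product]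
  refine Finset.sum_congr rfl fun i _ => Finset.sum_congr rfl fun j _ => ?_
  rw [Matrix.diag_apply, LinearMap.toMatrix_apply, Matrix.stdBasis_eq_single]
  have h1 : ∀ (X : Matrix I I K) (i j : I), (Matrix.stdBasis K I I).repr X (i, j) = X i j := by
    intro X i j
    conv_lhs => rw [Matrix.matrix_eq_sum_single X]
    rw [map_sum, Finsupp.finsetSum_apply, Finset.sum_eq_single i, map_sum,
      Finsupp.finsetSum_apply, Finset.sum_eq_single j]
    · have : Matrix.single i j (X i j) = X i j • (Matrix.stdBasis K I I) (i, j) := by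
        rw [Matrix.stdBasis_eq_single, Matrix.smul_single, smul_eq_mul, mul_one]
      rw [this, map_smul, Basis.repr_self, Finsupp.smul_apply, Finsupp.single_eq_same, smul_eq_mul,
        mul_one]
    · intro b _ hb
      have : Matrix.single i b (X i b) = X i b • (Matrix.stdBasis K I I) (i, b) := by
        rw [Matrix.stdBasis_eq_single, Matrix.smul_single, smul_eq_mul, mul_one]
      rw [this, map_smul, Basis.repr_self, Finsupp.smul_apply, Finsupp.single_eq_of_ne]
      · simp
      · simp [hb.symm]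
    · intro h; exact absurd (Finset.mem_univ _) h
    · intro b _ hb
      rw [map_sum, Finsupp.finsetSum_apply]
      refine Finset.sum_eq_zero fun c _ => ?_
      have : Matrix.single b c (X b c) = X b c • (Matrix.stdBasis K I I) (b, c) := by
        rw [Matrix.stdBasis_eq_single, Matrix.smul_single, smul_eq_mul, mul_one]
      rw [this, map_smul, Basis.repr_self, Finsupp.smul_apply, Finsupp.single_eq_of_ne]
      · simp
      · simp [hb.symm]
    · intro h; exact absurd (Finset.mem_univ _) h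
  rw [h1, hF]
  split_ifs
  · rw [Matrix.mul_assoc, Matrix.mul_apply, Finset.sum_eq_single i]
    · rw [Matrix.single_mul_apply_same, one_mul]
    · intro b _ hb
      rw [Matrix.single_mul_apply_of_ne _ _ _ _ _ hb, mul_zero]
    · intro h; exact absurd (Finset.mem_univ _) h
  · rfl

/-! ### relations -/

theorem TR_map {K K' R R' : Type*} [CommRing K] [CommRing K'] [Ring R] [Ring R'] [Algebra K R]
    [Algebra K' R'] (c : K) (c' : K') (n : ℕ) (τ : ℕ → R) (f : R →+* R')
    (hf : ∀ x, f (c • x) = c' • f x) (h : RelB c n τ) : RelB c' n fun i => f (τ i) where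
  quad i hi := by rw [← map_mul, h.quad i hi, map_add, map_one, hf]
  braid i hi hi' := by simp only [← map_mul]; rw [h.braid i hi hi']
  braid0 hn := by simp only [← map_mul]; rw [h.braid0 hn]
  comm i j hi hj := by simp only [← map_mul]; rw [h.comm i j hi hj]

theorem TR_prod {K R R' : Type*} [CommRing K] [Ring R] [Ring R'] [Algebra K R]
    [Algebra K R'] (c : K) (n : ℕ) (τ : ℕ → R) (τ' : ℕ → R') (h : RelB c n τ)
    (h' : RelB c n τ') : RelB c n fun i => (τ i, τ' i) where
  quad i hi := Prod.ext (h.quad i hi) (h'.quad i hi)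
  braid i hi hi' := Prod.ext (h.braid i hi hi') (h'.braid i hi hi')
  braid0 hn := Prod.ext (h.braid0 hn) (h'.braid0 hn)
  comm i j hi hj := Prod.ext (h.comm i j hi hj) (h'.comm i j hi hj)

/-! ### words -/

open Classical in
/-- the end state of a word -/
noncomputable def TR_E (n : ℕ) (S : St) (w : List Lab) : St :=
  if h : ∃ S', w ∈ paths n S S' then h.choose else ∅

theorem TR_E_eq (n : ℕ) (S S' : St) (w : List Lab) (h : w ∈ paths n S S') : TR_E n S w = S' := by
  have h' : ∃ S', w ∈ paths n S S' := ⟨S', h⟩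
  unfold TR_E
  rw [dif_pos h']
  exact SURJ_end_unique n S _ _ w h'.choose_spec h

theorem TR_E_mem (n : ℕ) (S : St) (w : List Lab) (h : w ∈ allPaths n S) :
    w ∈ paths n S (TR_E n S w) := by
  obtain ⟨S', hS⟩ := (SURJ_mem_all n S w).mp h
  rw [TR_E_eq n S S' w hS]; exact hS

theorem TR_sum_all {R : Type*} [AddCommMonoid R] (n : ℕ) (S : St) (f : List Lab → R) :
    ∑ w ∈ allPaths n S, f w = ∑ S' ∈ ends n S, ∑ w ∈ paths n S S', f w := by
  unfold allPaths
  rw [Finset.sum_biUnion]
  intro S₁ _ S₂ _ hne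
  rw [Function.onFun, Finset.disjoint_left]
  intro w h1 h2
  exact hne (SURJ_end_unique n S _ _ w h1 h2)

open Classical in
theorem TR_sum {R : Type*} [CommSemiring R] (n : ℕ) (S : St) (a b : List Lab → R) :
    ∑ w : allPaths n S, ∑ w' : allPaths n S,
      (if TR_E n S w.1 = TR_E n S w'.1 then a w.1 * b w'.1 else 0) =
    ∑ S' ∈ ends n S, (∑ w ∈ paths n S S', a w) * ∑ w ∈ paths n S S', b w := by
  have h1 : ∀ w : allPaths n S, ∑ w' : allPaths n S,
      (if TR_E n S w.1 = TR_E n S w'.1 then a w.1 * b w'.1 else 0) =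
      ∑ w' ∈ allPaths n S, (if TR_E n S w.1 = TR_E n S w' then a w.1 * b w' else 0) := fun w =>
    Finset.sum_coe_sort (allPaths n S)
      (fun w' => if TR_E n S w.1 = TR_E n S w' then a w.1 * b w' else 0)
  simp only [h1]
  rw [Finset.sum_coe_sort (allPaths n S) (fun w => ∑ w' ∈ allPaths n S,
    (if TR_E n S w = TR_E n S w' then a w * b w' else 0)), TR_sum_all]
  refine Finset.sum_congr rfl fun S₁ hS₁ => ?_
  rw [Finset.sum_mul]
  refine Finset.sum_congr rfl fun w hw => ?_
  rw [TR_sum_all, Finset.sum_eq_single S₁]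
  · rw [Finset.mul_sum]
    refine Finset.sum_congr rfl fun w' hw' => ?_
    rw [TR_E_eq n S S₁ w hw, TR_E_eq n S S₁ w' hw', if_pos rfl]
  · intro S₂ _ hne
    refine Finset.sum_eq_zero fun w' hw' => ?_
    rw [TR_E_eq n S S₁ w hw, TR_E_eq n S S₂ w' hw', if_neg hne.symm]
  · intro h; exact absurd hS₁ h

/-! ### the scalar `v` -/

theorem TR_zpow (K : Type*) [Field K] [Algebra A K]
    (hinj : Function.Injective (algebraMap A K)) (k : ℤ) :
    algebraMap A K v ^ k = algebraMap A K (LaurentPolynomial.T k) := by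
  have hv : algebraMap A K v ≠ 0 := by
    intro h
    have h1 : v = 0 := hinj (by rw [h, map_zero])
    have h2 := congrArg (fun p : A => p.coeff 1) h1
    simp [v] at h2
  have hn : ∀ m : ℕ, algebraMap A K v ^ m = algebraMap A K (LaurentPolynomial.T (m : ℤ)) := by
    intro m
    rw [← map_pow, v, LaurentPolynomial.T_pow, mul_one]
  rcases Int.eq_nat_or_neg k with ⟨m, rfl | rfl⟩
  · rw [zpow_natCast, hn]
  · rw [zpow_neg, zpow_natCast, hn, inv_eq_iff_eq_inv]
    apply eq_inv_of_mul_eq_one_left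
    rw [← map_mul, ← LaurentPolynomial.T_add]
    simp

theorem TR_generic (K : Type*) [Field K] [Algebra A K]
    (hinj : Function.Injective (algebraMap A K)) : Generic (algebraMap A K v) := by
  refine ⟨?_, ?_, ?_⟩
  · intro h
    have h1 : v = 0 := hinj (by rw [h, map_zero])
    have h2 := congrArg (fun p : A => p.coeff 1) h1
    simp [v] at h2
  · intro k h
    rw [TR_zpow K hinj] at h
    have h1 : (LaurentPolynomial.T k : A) = -1 := hinj (by rw [h]; simp)
    have h2 := congrArg (fun p : A => p.coeff k) h1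
    have h3 : (-1 : A) = -LaurentPolynomial.T 0 := rfl
    rw [h3] at h2
    simp only [AddMonoidAlgebra.coeff_neg, Finsupp.neg_apply, LaurentPolynomial.T_apply] at h2
    split_ifs at h2 <;> simp at h2
  · intro k hk h
    rw [TR_zpow K hinj] at h
    have h1 : (LaurentPolynomial.T k : A) = LaurentPolynomial.T 0 := hinj (by rw [h]; simp)
    have h2 := congrArg (fun p : A => p.coeff k) h1
    simp only [LaurentPolynomial.T_apply, if_true] at h2
    rw [if_neg (fun h => hk h.symm)] at h2
    exact one_ne_zero h2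

/-! ### generation -/

theorem TR_reduced (hGEN : GEN_stmt) (n : ℕ) (w : W n) : ∃ l : List ℕ, (∀ i ∈ l, i < n) ∧
    (l.map (g n)).prod = w ∧ len w = l.length := by
  have hne : {k | ∃ l : List (Fin n), l.length = k ∧ (l.map (gen n)).prod = w}.Nonempty := by
    obtain ⟨l, hl⟩ := hGEN n w
    exact ⟨l.length, l, rfl, hl⟩
  obtain ⟨l, hl1, hl2⟩ := Nat.sInf_mem hne
  refine ⟨l.map Fin.val, ?_, ?_, ?_⟩
  · intro i hi
    obtain ⟨j, -, rfl⟩ := List.mem_map.mp hi
    exact j.isLt
  · rw [List.map_map, ← hl2]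
    congr 1
    refine List.map_congr_left fun i _ => ?_
    simp [g]
  · rw [List.length_map, hl1]; rfl

theorem TR_list {R : Type*} [Monoid R] (P : Set ℕ) (τ : ℕ → R) (s : Submonoid R)
    (h : ∀ i ∈ P, τ i ∈ s) (l : List ℕ) (hl : ∀ i ∈ l, i ∈ P) : (l.map τ).prod ∈ s := by
  refine Submonoid.list_prod_mem _ fun x hx => ?_
  obtain ⟨i, hi, rfl⟩ := List.mem_map.mp hx
  exact h i (hl i hi)

/-- the generators generate the extended algebra -/
theorem TR_top (hGEN : GEN_stmt) (hTW : TW_stmt) (n : ℕ) (H : Type) [Ring H] [Algebra A H]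
    (T : Basis (W n) A H) (hT : IsHecke n T) (K : Type) [Field K] [Algebra A K] :
    Algebra.adjoin K ((fun i => (1 : K) ⊗ₜ[A] T (g n i)) '' {i | i < n}) =
      (⊤ : Subalgebra K (K ⊗[A] H)) := by
  rw [eq_top_iff]
  intro x _
  have hx : x ∈ Submodule.span K (Set.range (Algebra.TensorProduct.basis K T)) := by
    rw [Basis.span_eq]; exact Submodule.mem_top
  refine Submodule.span_le (p := Subalgebra.toSubmodule (Algebra.adjoin K
    ((fun i => (1 : K) ⊗ₜ[A] T (g n i)) '' {i | i < n}))).mpr ?_ hx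
  rintro _ ⟨w, rfl⟩
  rw [Algebra.TensorProduct.basis_apply]
  obtain ⟨l, hl1, hl2, hl3⟩ := TR_reduced hGEN n w
  have h1 := (hTW n H T hT).2 l hl1 (by rw [hl2]; exact hl3)
  rw [← hl2, h1]
  have h2 : (1 : K) ⊗ₜ[A] (l.map fun i => T (g n i)).prod =
      (l.map fun i => (1 : K) ⊗ₜ[A] T (g n i)).prod := by
    have := map_list_prod (Algebra.TensorProduct.includeRight : H →ₐ[A] K ⊗[A] H)
      (l.map fun i => T (g n i))
    rw [List.map_map] at this
    exact this
  rw [h2]
  exact TR_list {i | i < n} (fun i => (1 : K) ⊗ₜ[A] T (g n i)) (Algebra.adjoin K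
    ((fun i => (1 : K) ⊗ₜ[A] T (g n i)) '' {i | i < n})).toSubmonoid
    (fun i hi => Algebra.subset_adjoin ⟨i, hi, rfl⟩) l hl1

section block

variable {K : Type*} [Field K] {I : Type*} [Fintype I] [DecidableEq I]

open Classical in
/-- block matrices as functions -/
noncomputable def TR_J (e : I → St) : ({p : I × I // e p.1 = e p.2} → K) →ₗ[K] Matrix I I K where
  toFun f := fun i j => if h : e i = e j then f ⟨(i, j), h⟩ else 0
  map_add' f g := by
    ext i j
    simp only [Matrix.add_apply]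
    split_ifs <;> simp
  map_smul' c f := by
    ext i j
    simp only [Matrix.smul_apply, RingHom.id_apply]
    split_ifs <;> simp

theorem TR_J_inj (e : I → St) : Function.Injective (TR_J (K := K) e) := by
  intro f f' h
  funext ⟨⟨i, j⟩, hij⟩
  have := congrFun (congrFun h i) j
  simp only [TR_J, LinearMap.coe_mk, AddHom.coe_mk] at this
  rw [dif_pos hij, dif_pos hij] at this
  exact this

/-- restriction to the blocks -/
noncomputable def TR_R (e : I → St) : Matrix I I K →ₗ[K] ({p : I × I // e p.1 = e p.2} → K) where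
  toFun X := fun p => X p.1.1 p.1.2
  map_add' X Y := rfl
  map_smul' c X := rfl

open Classical in
theorem TR_JR (e : I → St) (X : Matrix I I K) (i j : I) :
    TR_J e (TR_R e X) i j = if e i = e j then X i j else 0 := by
  simp only [TR_J, TR_R, LinearMap.coe_mk, AddHom.coe_mk]
  split_ifs <;> rfl

theorem TR_RJ (e : I → St) (f : {p : I × I // e p.1 = e p.2} → K) : TR_R e (TR_J e f) = f := by
  funext ⟨⟨i, j⟩, hij⟩
  simp only [TR_J, TR_R, LinearMap.coe_mk, AddHom.coe_mk]
  rw [dif_pos hij]

end block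

/-- the extended Hecke algebra is the algebra of block matrices -/
theorem TR_iso (hGEN : GEN_stmt) (hTW : TW_stmt) (hCARD : CARD_stmt) (hHREL : HREL_stmt)
    (hDIM : DIM_stmt) (hCNT : CNT_stmt) (hREP : REP_stmt) (n : ℕ) (H : Type) [Ring H]
    [Algebra A H] (T : Basis (W n) A H) (hT : IsHecke n T) (hn : 1 ≤ n) (K : Type) [Field K]
    [Algebra A K] (hinj : Function.Injective (algebraMap A K)) :
    Module.Finite K (K ⊗[A] H) ∧
    ∃ ψ : (K ⊗[A] H) →ₐ[K] Matrix (allPaths n (vac n)) (allPaths n (vac n)) K,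
      Function.Injective ψ ∧
      LinearMap.range ψ.toLinearMap = LinearMap.range
        (TR_J (K := K) fun w : allPaths n (vac n) => TR_E n (vac n) w.1) ∧
      ∀ i < n, ψ ((1 : K) ⊗ₜ[A] T (g n i)) = mat n (vac n) (op (algebraMap A K v) n i) := by
  classical
  have hgen := TR_generic K hinj
  set S := vac n with hS
  set q := algebraMap A K v with hq
  set N := 2 ^ n * n.factorial with hN
  have hfinW : Finite (W n) := by infer_instance
  -- the extended algebra
  have hfin : Module.Finite K (K ⊗[A] H) :=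
    Module.Finite.of_basis (Algebra.TensorProduct.basis K T)
  have hdimH : finrank K (K ⊗[A] H) = N := by
    rw [finrank_eq_nat_card_basis (Algebra.TensorProduct.basis K T), hCARD n]
  have hrel1 : RelB (q - q⁻¹) n fun i => (1 : K) ⊗ₜ[A] T (g n i) := by
    have h1 := hHREL n H T hT
    have h2 : algebraMap A K (v - vi) = q - q⁻¹ := by
      have h3 : algebraMap A K vi = q⁻¹ := by
        have h4 := TR_zpow K hinj (-1)
        rw [zpow_neg, zpow_one] at h4
        exact h4.symm
      rw [map_sub, h3]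
    refine TR_map (v - vi) (q - q⁻¹) n (fun i => T (g n i))
      (Algebra.TensorProduct.includeRight : H →ₐ[A] K ⊗[A] H).toRingHom ?_ h1
    intro x
    change (Algebra.TensorProduct.includeRight : H →ₐ[A] K ⊗[A] H) ((v - vi) • x) =
      (q - q⁻¹) • (Algebra.TensorProduct.includeRight : H →ₐ[A] K ⊗[A] H) x
    rw [map_smul, ← h2, algebraMap_smul]
  have hrel2 := (hREP K q hgen n n hn le_rfl).1
  -- the algebra generated by the pairs
  set t : ℕ → (K ⊗[A] H) × Matrix (allPaths n S) (allPaths n S) K :=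
    fun i => ((1 : K) ⊗ₜ[A] T (g n i), mat n S (op q n i)) with ht
  have hrel : RelB (q - q⁻¹) n t := TR_prod _ _ _ _ hrel1 hrel2
  obtain ⟨hDfin, hDdim⟩ := hDIM K _ (q - q⁻¹) n t hrel
  set D := Algebra.adjoin K (t '' {i | i < n}) with hD
  have htD : ∀ i < n, t i ∈ D := fun i hi => Algebra.subset_adjoin ⟨i, hi, rfl⟩
  set p1 : D →ₐ[K] (K ⊗[A] H) := (AlgHom.fst K _ _).comp D.val with hp1
  set p2 : D →ₐ[K] Matrix (allPaths n S) (allPaths n S) K := (AlgHom.snd K _ _).comp D.val
    with hp2
  have hp1t : ∀ i (hi : i < n), p1 ⟨t i, htD i hi⟩ = (1 : K) ⊗ₜ[A] T (g n i) := fun i hi => rfl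
  have hp2t : ∀ i (hi : i < n), p2 ⟨t i, htD i hi⟩ = mat n S (op q n i) := fun i hi => rfl
  have hsur1 : Function.Surjective p1 := by
    rw [← AlgHom.range_eq_top, eq_top_iff, ← TR_top hGEN hTW n H T hT K]
    refine Algebra.adjoin_le ?_
    rintro _ ⟨i, hi, rfl⟩
    exact ⟨⟨t i, htD i hi⟩, hp1t i hi⟩
  have hdimD : finrank K D = N := by
    refine le_antisymm hDdim ?_
    rw [← hdimH]
    exact LinearMap.finrank_le_finrank_of_surjective (f := p1.toLinearMap) hsur1
  have hinj1 : Function.Injective p1 :=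
    (LinearMap.injective_iff_surjective_of_finrank_eq_finrank (f := p1.toLinearMap)
      (by rw [hdimD, hdimH])).mpr hsur1
  -- the second projection
  set e : allPaths n S → St := fun w => TR_E n S w.1 with he
  have hsub : LinearMap.range (TR_J (K := K) e) ≤ LinearMap.range p2.toLinearMap := by
    rintro _ ⟨f, rfl⟩
    have h1 : TR_J (K := K) e f ∈ Algebra.adjoin K ((fun i => mat n S (op q n i)) '' {i | i < n}) := by
      refine SURJ_all hgen n n hn S _ ?_
      intro w w' hw
      simp only [TR_J, LinearMap.coe_mk, AddHom.coe_mk]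
      rw [dif_neg]
      intro h
      refine hw (TR_E n S w.1) ⟨TR_E_mem n S w.1 w.2, ?_⟩
      have h' : TR_E n S w.1 = TR_E n S w'.1 := h
      rw [h']
      exact TR_E_mem n S w'.1 w'.2
    have h2 : Algebra.adjoin K ((fun i => mat n S (op q n i)) '' {i | i < n}) ≤ p2.range := by
      refine Algebra.adjoin_le ?_
      rintro _ ⟨i, hi, rfl⟩
      exact ⟨⟨t i, htD i hi⟩, hp2t i hi⟩
    obtain ⟨d, hd⟩ := h2 h1
    exact ⟨d, hd⟩
  have hcard : finrank K (LinearMap.range (TR_J (K := K) e)) = N := by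
    rw [LinearMap.finrank_range_of_inj (TR_J_inj e), finrank_fintype_fun_eq_card,
      Fintype.card_subtype, Finset.card_filter, ← Finset.univ_product_univ, Finset.sum_product]
    have h1 := TR_sum (R := ℕ) n S (fun _ => 1) (fun _ => 1)
    have h2 : ∀ x y : allPaths n S, (if e (x, y).1 = e (x, y).2 then 1 else 0) =
        (if TR_E n S x.1 = TR_E n S y.1 then 1 * 1 else 0) := fun x y => rfl
    simp only [h2]
    rw [h1, hN, ← hCNT n n le_rfl]
    refine Finset.sum_congr rfl fun S' _ => ?_
    simp [sq, hS]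
  have hrank : finrank K (LinearMap.range p2.toLinearMap) = N := by
    refine le_antisymm ?_ ?_
    · rw [← hdimD]; exact LinearMap.finrank_range_le _
    · rw [← hcard]; exact Submodule.finrank_mono hsub
  have hrange : LinearMap.range (TR_J (K := K) e) = LinearMap.range p2.toLinearMap :=
    Submodule.eq_of_le_of_finrank_eq hsub (by rw [hcard, hrank])
  have hinj2 : Function.Injective p2 := by
    have h1 := LinearMap.finrank_range_add_finrank_ker p2.toLinearMap
    rw [hrank, hdimD] at h1
    have h2 : finrank K (LinearMap.ker p2.toLinearMap) = 0 := by omega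
    have h3 := Submodule.finrank_eq_zero.mp h2
    exact LinearMap.ker_eq_bot.mp h3
  set E := AlgEquiv.ofBijective p1 ⟨hinj1, hsur1⟩ with hE
  refine ⟨hfin, p2.comp E.symm.toAlgHom, ?_, ?_, ?_⟩
  · intro x y h
    exact E.symm.injective (hinj2 h)
  · rw [hrange]
    ext y
    constructor
    · rintro ⟨x, rfl⟩; exact ⟨E.symm x, rfl⟩
    · rintro ⟨d, rfl⟩
      refine ⟨E d, ?_⟩
      change p2 (E.symm (E d)) = p2 d
      rw [AlgEquiv.symm_apply_apply]
  · intro i hi
    change p2 (E.symm ((1 : K) ⊗ₜ[A] T (g n i))) = _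
    have h1 : E ⟨t i, htD i hi⟩ = (1 : K) ⊗ₜ[A] T (g n i) := hp1t i hi
    rw [← h1, AlgEquiv.symm_apply_apply, hp2t i hi]

/-- the trace formula -/
theorem TR (hGEN : GEN_stmt) (hTW : TW_stmt) (hCARD : CARD_stmt) (hHREL : HREL_stmt)
    (hDIM : DIM_stmt) (hCNT : CNT_stmt) (hREP : REP_stmt) : TR_stmt := by
  classical
  intro n H _ _ T hT hn K _ _ hinj l₁ l₂ hl₁ hl₂
  have hiso := TR_iso hGEN hTW hCARD hHREL hDIM hCNT hREP n H T hT hn K hinj
  have hREP' := (hREP K _ (TR_generic K hinj) n n hn le_rfl).2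
  have hfinA : Module.Finite A H := Module.Finite.of_basis T
  have hfreeA : Module.Free A H := Module.Free.of_basis T
  set S := vac n with hS
  set q := algebraMap A K v with hq
  obtain ⟨hfin, ψ, hψ, hrange, hgen⟩ := hiso
  set a := (l₁.map fun i => T (g n i)).prod with ha
  set b := (l₂.map fun i => T (g n i)).prod with hb
  have hprod : ∀ l : List ℕ, (∀ i ∈ l, i < n) →
      ψ ((1 : K) ⊗ₜ[A] (l.map fun i => T (g n i)).prod) = mat n S (opW q n l) := by
    intro l hl
    have h2 : (1 : K) ⊗ₜ[A] (l.map fun i => T (g n i)).prod =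
        (l.map fun i => (1 : K) ⊗ₜ[A] T (g n i)).prod := by
      have := map_list_prod (Algebra.TensorProduct.includeRight : H →ₐ[A] K ⊗[A] H)
        (l.map fun i => T (g n i))
      rw [List.map_map] at this
      exact this
    rw [h2, map_list_prod, List.map_map, hREP' l hl]
    congr 1
    exact List.map_congr_left fun i hi => hgen i (hl i hi)
  set e : allPaths n S → St := fun w => TR_E n S w.1 with he
  set P := mat n S (opW q n l₁) with hP
  set Q := mat n S (opW q n l₂) with hQ
  set F : Matrix (allPaths n S) (allPaths n S) K →ₗ[K] Matrix (allPaths n S) (allPaths n S) K :=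
    TR_J e ∘ₗ TR_R e ∘ₗ LinearMap.mulLeft K P ∘ₗ LinearMap.mulRight K Q with hF
  have hbc : (LinearMap.mulLeft A a ∘ₗ LinearMap.mulRight A b).baseChange K =
      LinearMap.mulLeft K ((1 : K) ⊗ₜ[A] a) ∘ₗ LinearMap.mulRight K ((1 : K) ⊗ₜ[A] b) := by
    ext x
    simp
  rw [← LinearMap.trace_baseChange, hbc]
  have htr := TR_trace ψ.toLinearMap hψ
    (LinearMap.mulLeft K ((1 : K) ⊗ₜ[A] a) ∘ₗ LinearMap.mulRight K ((1 : K) ⊗ₜ[A] b)) F
    (by
      intro x
      have h1 : P * (ψ x * Q) = ψ ((1 : K) ⊗ₜ[A] a * (x * (1 : K) ⊗ₜ[A] b)) := by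
        rw [map_mul, map_mul, hprod l₁ hl₁, hprod l₂ hl₂]
      obtain ⟨f, hf⟩ : ψ.toLinearMap ((1 : K) ⊗ₜ[A] a * (x * (1 : K) ⊗ₜ[A] b)) ∈
          LinearMap.range (TR_J (K := K) e) := by
        rw [← hrange]; exact ⟨_, rfl⟩
      change TR_J e (TR_R e (P * (ψ x * Q))) =
        ψ.toLinearMap ((1 : K) ⊗ₜ[A] a * (x * (1 : K) ⊗ₜ[A] b))
      rw [h1]
      have hf' : ψ ((1 : K) ⊗ₜ[A] a * (x * (1 : K) ⊗ₜ[A] b)) = TR_J e f := hf.symm
      rw [hf', TR_RJ, hf])
    (by
      intro y
      rw [hrange]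
      exact ⟨TR_R e (P * (y * Q)), rfl⟩)
  rw [← htr, TR_trace_mat (fun i j => e i = e j) P Q F (by
    intro X i j
    change TR_J e (TR_R e (P * (X * Q))) i j = _
    rw [TR_JR, ← Matrix.mul_assoc])]
  exact TR_sum n S (fun w => (opW q n l₁) (Finsupp.single w 1) w)
    (fun w => (opW q n l₂) (Finsupp.single w 1) w)

end Pool.Agent.helper27.PC
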