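import Pool.Agent.helper64.PC.SpecE

/-!
# Row QWM of project pc (MP_069684_lc, owner helper64)
-/

set_option autoImplicit false

namespace Pool.Agent.PC

open Pool.Agent.PB

theorem QWM_mono {G : Set Gate} {n : ℕ} {f : BF n} {s t : ℕ} (h : Size G f s) (hst : s ≤ t) :
    Size G f t := by
  obtain ⟨l, h1, h2, h3⟩ := h
  exact ⟨l, h1, h2.trans hst, h3⟩

theorem QWM_basis {G G' : Set Gate} (h : G ⊆ G') {n : ℕ} {f : BF n} {s : ℕ} (hf : Size G f s) :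
    Size G' f s := by
  obtain ⟨l, h1, h2, h3⟩ := hf
  exact ⟨l, Prog.mono_basis h h1, h2, h3⟩

theorem QWM_ren (hSUB : SUB_stmt) {G : Set Gate} {m n : ℕ} {F : BF m} {s : ℕ} (r : Fin m → Fin n)
    (h : Size G F s) : Size G (fun x : Fin n → Bool => F fun i => x (r i)) s := by
  obtain ⟨l', h1, h2, h3⟩ := hSUB G m n F s [] (fun i => fun x => x (r i)) h Prog.nil
    (fun i => Or.inr ⟨r i, rfl⟩)
  rw [List.append_nil] at h1 h3
  exact ⟨l', h1, h2, h3⟩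

theorem QWM_zero : Size std (fun _ : Fin 0 → Bool => false) 1 := by
  refine ⟨[fun x => (gConst false).2 fun i => (fun _ => fun _ => false : Fin 0 → BF 0) i x], ?_, ?_, ?_⟩
  · exact Prog.step [] (gConst false) (fun _ => fun _ => false) Prog.nil (by simp [std])
      (fun i => Fin.elim0 i)
  · simp
  · left
    exact List.mem_singleton.mpr rfl

/-- One slice. -/
theorem QWM_slice (hSUB : SUB_stmt) (G : Set Gate) (c C n₀ : ℕ) (m : ℕ → ℕ) (hc : 1 ≤ c) (hn₀ : 1 ≤ n₀)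
    (P : ℕ → ℕ → Prop)
    (hF : ∀ n, n₀ ≤ n → ∃ N, 1 ≤ N ∧ c * N ≤ n ∧ ∃ m', 1 ≤ m' ∧ m' ≤ c * N ∧ ∃ f : BF m', InCl G f ∧
      Size std f (c * (C * (N + 2) ^ 4 + N)) ∧ ∀ s, Size (upTo G (m n)) f s → P n s)
    (n : ℕ) : ∃ g : BF n, Size std g (c * (C + 1) * ((n + 2) ^ 4 + n + 4 + 2)) ∧ (1 ≤ n → ∃ s, Size G g s) ∧
      (n₀ ≤ n → ∀ s, Size (upTo G (m n)) g s → P n s) := by
  have hcpos : 0 < c := hc
  by_cases h : n₀ ≤ n
  · obtain ⟨N, hN1, hcN, m', hm1, hm2, f, hf1, hf2, hf3⟩ := hF n h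
    have hmn : m' ≤ n := hm2.trans hcN
    refine ⟨fun x => f fun i => x (Fin.castLE hmn i), ?_, ?_, ?_⟩
    · refine QWM_mono (QWM_ren hSUB (Fin.castLE hmn) hf2) ?_
      have h1 : N ≤ n := (Nat.le_mul_of_pos_left _ hcpos).trans hcN
      have h2 : (N + 2) ^ 4 ≤ (n + 2) ^ 4 := Nat.pow_le_pow_left (by omega) 4
      rw [mul_assoc]
      apply Nat.mul_le_mul_left
      have h3 : C * (N + 2) ^ 4 ≤ C * ((n + 2) ^ 4 + n + 4 + 2) := Nat.mul_le_mul_left _ (by omega)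
      have h4 : (C + 1) * ((n + 2) ^ 4 + n + 4 + 2) =
          C * ((n + 2) ^ 4 + n + 4 + 2) + ((n + 2) ^ 4 + n + 4 + 2) := by ring
      rw [h4]
      exact Nat.add_le_add h3 (by omega)
    · intro _
      obtain ⟨s, hs⟩ := hf1
      exact ⟨s, QWM_ren hSUB (Fin.castLE hmn) hs⟩
    · intro _ s hs
      apply hf3
      have h1 := QWM_ren hSUB (fun j : Fin n => if hj : (j : ℕ) < m' then (⟨j, hj⟩ : Fin m') else ⟨0, hm1⟩) hs
      have h2 : (fun x : Fin m' → Bool => f fun i => x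
          ((fun j : Fin n => if hj : (j : ℕ) < m' then (⟨j, hj⟩ : Fin m') else ⟨0, hm1⟩)
            (Fin.castLE hmn i))) = f := by
        funext x
        congr 1
        funext i
        have h3 : ((Fin.castLE hmn i : Fin n) : ℕ) < m' := i.2
        show x (if hj : ((Fin.castLE hmn i : Fin n) : ℕ) < m' then
          (⟨(Fin.castLE hmn i : Fin n), hj⟩ : Fin m') else ⟨0, hm1⟩) = x i
        rw [dif_pos h3]
        rfl
      rw [h2] at h1
      exact h1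
  · rcases Nat.eq_zero_or_pos n with h0 | h0
    · subst h0
      refine ⟨fun _ => false, ?_, ?_, ?_⟩
      · refine QWM_mono QWM_zero ?_
        have h2 : 1 ≤ c * (C + 1) := Nat.mul_pos hcpos (by omega)
        have : 1 * 1 ≤ c * (C + 1) * ((0 + 2) ^ 4 + 0 + 4 + 2) := Nat.mul_le_mul h2 (by norm_num)
        simpa using this
      · intro h1
        omega
      · intro h1
        omega
    · refine ⟨fun x => x ⟨0, h0⟩, ?_, ?_, ?_⟩
      · exact ⟨[], Prog.nil, by simp, Or.inr ⟨⟨0, h0⟩, rfl⟩⟩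
      · intro _
        exact ⟨0, [], Prog.nil, by simp, Or.inr ⟨⟨0, h0⟩, rfl⟩⟩
      · intro h1
        exact absurd h1 h

theorem QWM (hBSM : BSM_stmt) (hQNM : QNM_stmt) (hSUB : SUB_stmt) (hPOL : POL_stmt) : QWM_stmt := by
  intro G hG m hm
  obtain ⟨c, hc⟩ := hG
  obtain ⟨C, hB⟩ := hBSM
  have hc1 : 1 ≤ c := by
    obtain ⟨m', hm1, hm2, -⟩ := hc 1 (fun _ => true) le_rfl (fun _ _ _ _ => rfl)
    omega
  obtain ⟨n₀, hn₀, hQ⟩ := hQNM c m hc1 hm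
  have hF : ∀ n, n₀ ≤ n → ∃ N, 1 ≤ N ∧ c * N ≤ n ∧ ∃ m', 1 ≤ m' ∧ m' ≤ c * N ∧ ∃ f : BF m', InCl G f ∧
      Size std f (c * (C * (N + 2) ^ 4 + N)) ∧ ∀ s, Size (upTo G (m n)) f s →
        (2 : ℝ) ^ (((n : ℝ) / m n) ^ (1 / 19 : ℝ)) ≤ s := by
    intro n hn
    obtain ⟨e, r, he, hr, her, hcn, hmr, hs⟩ := hQ n hn
    obtain ⟨h, hmono, hsize, hlow⟩ := hB e r he hr her
    obtain ⟨m', hm1, hm2, f, hf1, hf2, hf3⟩ := hc (2 ^ (6 * e * (r + 1))) h Nat.one_le_two_pow hmono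
    refine ⟨2 ^ (6 * e * (r + 1)), Nat.one_le_two_pow, hcn, m', hm1, hm2, f, hf1, hf2 _ hsize, ?_⟩
    intro s hs'
    apply hs s
    apply hlow
    refine QWM_basis ?_ (hf3 (m n) s hs')
    intro g hg
    exact ⟨hg.1, hg.2.trans hmr⟩
  choose A hA using QWM_slice hSUB G c C n₀ m hc1 hn₀
    (fun n s => (2 : ℝ) ^ (((n : ℝ) / m n) ^ (1 / 19 : ℝ)) ≤ s) hF
  obtain ⟨d, hd⟩ := hPOL (c * (C + 1)) 4
  exact ⟨A, ⟨d, fun n => QWM_mono (hA n).1 (hd n)⟩, fun n hn => (hA n).2.1 hn, n₀,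
    fun n hn s hs => (hA n).2.2 hn s hs⟩

end Pool.Agent.PC
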