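import Pool.Agent.helper27.PC.Stmt

/-!
# PC project: SURJ, the seminormal matrices generate the algebra of block matrices
-/

namespace Pool.Agent.helper27.PC

open Module Polynomial

/-! ### words -/

theorem SURJ_cons_mem (n : ℕ) (S S' : St) (l : Lab) (w : List Lab) :
    l :: w ∈ paths (n + 1) S S' ↔ l ∈ addable 1 S ∧ w ∈ paths n (move 1 S l) S' := by
  simp only [paths, Finset.mem_biUnion, Finset.mem_image]
  constructor
  · rintro ⟨a, ha, w', hw', h⟩
    simp only [List.cons.injEq] at h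
    obtain ⟨rfl, rfl⟩ := h
    exact ⟨ha, hw'⟩
  · rintro ⟨h1, h2⟩
    exact ⟨l, h1, w, h2, rfl⟩

theorem SURJ_nil_mem (n : ℕ) (S S' : St) : [] ∈ paths (n + 1) S S' ↔ False := by
  simp [paths]

theorem SURJ_zero (S S' : St) (w : List Lab) : w ∈ paths 0 S S' ↔ w = [] ∧ S = S' := by
  simp only [paths]
  split_ifs with h <;> simp [h]

theorem SURJ_length : ∀ (n : ℕ) (S S' : St) (w : List Lab), w ∈ paths n S S' → w.length = n
  | 0, S, S', w, h => by rw [SURJ_zero] at h; simp [h.1]
  | n + 1, S, S', [], h => by simp [SURJ_nil_mem] at h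
  | n + 1, S, S', l :: w, h => by
      rw [SURJ_cons_mem] at h
      simp [SURJ_length n _ _ w h.2]

theorem SURJ_end_unique : ∀ (n : ℕ) (S S' S'' : St) (w : List Lab), w ∈ paths n S S' →
    w ∈ paths n S S'' → S' = S''
  | 0, S, S', S'', w, h, h' => by
      rw [SURJ_zero] at h h'; exact h.2.symm.trans h'.2
  | n + 1, S, S', S'', [], h, h' => by simp [SURJ_nil_mem] at h
  | n + 1, S, S', S'', l :: w, h, h' => by
      rw [SURJ_cons_mem] at h h'
      exact SURJ_end_unique n _ _ _ w h.2 h'.2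

theorem SURJ_ends : ∀ (n : ℕ) (S S' : St) (w : List Lab), w ∈ paths n S S' → S' ∈ ends n S
  | 0, S, S', w, h => by rw [SURJ_zero] at h; simp [ends, h.2]
  | n + 1, S, S', [], h => by simp [SURJ_nil_mem] at h
  | n + 1, S, S', l :: w, h => by
      rw [SURJ_cons_mem] at h
      simp only [ends, Finset.mem_biUnion]
      exact ⟨l, h.1, SURJ_ends n _ _ w h.2⟩

theorem SURJ_mem_all (n : ℕ) (S : St) (w : List Lab) :
    w ∈ allPaths n S ↔ ∃ S', w ∈ paths n S S' := by
  simp only [allPaths, Finset.mem_biUnion]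
  constructor
  · rintro ⟨S', -, h⟩; exact ⟨S', h⟩
  · rintro ⟨S', h⟩; exact ⟨S', SURJ_ends n S S' w h, h⟩

theorem SURJ_up_inj (a b : Lab) : up 1 a = up 1 b ↔ a = b := by
  simp [up, Prod.ext_iff]

theorem SURJ_up_ne (a : Lab) : up 1 a ≠ a := by
  simp [up, Prod.ext_iff]

theorem SURJ_addable (S : St) (l : Lab) : l ∈ addable 1 S ↔ l ∈ S ∧ up 1 l ∉ S := by
  simp [addable]

theorem SURJ_mem_move (S : St) (l y : Lab) :
    y ∈ move 1 S l ↔ y = up 1 l ∨ (y ≠ l ∧ y ∈ S) := by
  simp [move]

/-- an elementary exchange of two neighbouring letters -/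
def Swp (w w' : List Lab) : Prop := ∃ (u : List Lab) (a b : Lab) (z : List Lab),
  w = u ++ a :: b :: z ∧ w' = u ++ b :: a :: z ∧ b ≠ up 1 a ∧ a ≠ up 1 b

theorem SURJ_swap : ∀ (u : List Lab) (n : ℕ) (S S' : St) (a b : Lab) (z : List Lab),
    b ≠ up 1 a → a ≠ up 1 b → u ++ a :: b :: z ∈ paths n S S' → u ++ b :: a :: z ∈ paths n S S'
  | [], 0, S, S', a, b, z, _, _, h => by simp [SURJ_zero] at h
  | [], 1, S, S', a, b, z, _, _, h => by
      have := SURJ_length _ _ _ _ h
      simp at this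
  | [], n + 2, S, S', a, b, z, h1, h2, h => by
      simp only [List.nil_append, SURJ_cons_mem] at h ⊢
      obtain ⟨ha, hb, hz⟩ := h
      rw [SURJ_addable] at ha hb
      rw [SURJ_mem_move, SURJ_mem_move] at hb
      obtain ⟨hb1, hb2⟩ := hb
      have hbS : b ≠ a ∧ b ∈ S := by tauto
      have hub : up 1 b ∉ S := fun h => hb2 (Or.inr ⟨fun h' => h2 h'.symm, h⟩)
      refine ⟨?_, ?_, ?_⟩
      · rw [SURJ_addable]; exact ⟨hbS.2, hub⟩
      · rw [SURJ_addable, SURJ_mem_move, SURJ_mem_move, SURJ_up_inj]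
        refine ⟨Or.inr ⟨hbS.1.symm, ha.1⟩, ?_⟩
        rintro (h | ⟨h, h'⟩)
        · exact hbS.1 h.symm
        · exact ha.2 h'
      · have : move 1 (move 1 S b) a = move 1 (move 1 S a) b := by
          ext y
          simp only [SURJ_mem_move]
          constructor
          · rintro (rfl | ⟨h3, rfl | ⟨h4, h5⟩⟩)
            · exact Or.inr ⟨fun h => h1 h.symm, Or.inl rfl⟩
            · exact Or.inl rfl
            · exact Or.inr ⟨h4, Or.inr ⟨h3, h5⟩⟩
          · rintro (rfl | ⟨h3, rfl | ⟨h4, h5⟩⟩)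
            · exact Or.inr ⟨fun h => h2 h.symm, Or.inl rfl⟩
            · exact Or.inl rfl
            · exact Or.inr ⟨h4, Or.inr ⟨h3, h5⟩⟩
        rw [this]; exact hz
  | c :: u, 0, S, S', a, b, z, _, _, h => by simp [SURJ_zero] at h
  | c :: u, n + 1, S, S', a, b, z, h1, h2, h => by
      simp only [List.cons_append, SURJ_cons_mem] at h ⊢
      exact ⟨h.1, SURJ_swap u n _ _ a b z h1 h2 h.2⟩

theorem SURJ_swp_mem (n : ℕ) (S S' : St) (w w' : List Lab) (h : Swp w w')
    (hw : w ∈ paths n S S') : w' ∈ paths n S S' := by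
  obtain ⟨u, a, b, z, rfl, rfl, h1, h2⟩ := h
  exact SURJ_swap u n S S' a b z h1 h2 hw

/-- consecutive letters are distinct -/
theorem SURJ_ne : ∀ (u : List Lab) (n : ℕ) (S S' : St) (a b : Lab) (z : List Lab),
    u ++ a :: b :: z ∈ paths n S S' → a ≠ b
  | [], 0, S, S', a, b, z, h => by simp [SURJ_zero] at h
  | [], 1, S, S', a, b, z, h => by
      have := SURJ_length _ _ _ _ h
      simp at this
  | [], n + 2, S, S', a, b, z, h => by
      simp only [List.nil_append, SURJ_cons_mem] at h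
      obtain ⟨ha, hb, hz⟩ := h
      rw [SURJ_addable, SURJ_mem_move] at hb
      rintro rfl
      rcases hb.1 with h | ⟨h, -⟩
      · exact SURJ_up_ne _ h.symm
      · exact h rfl
  | c :: u, 0, S, S', a, b, z, h => by simp [SURJ_zero] at h
  | c :: u, n + 1, S, S', a, b, z, h => by
      simp only [List.cons_append, SURJ_cons_mem] at h
      exact SURJ_ne u n _ _ a b z h.2

/-- number of beads beyond the place `b` -/
def SURJ_N (b : Lab) (S : St) : ℕ := (S.filter fun y => y.1 = b.1 ∧ b.2 < y.2).card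

theorem SURJ_N_move (b c : Lab) (S : St) (hc : c ∈ addable 1 S) :
    SURJ_N b (move 1 S c) = SURJ_N b S + if c = b then 1 else 0 := by
  rw [SURJ_addable] at hc
  obtain ⟨h1, h2⟩ := hc
  unfold SURJ_N move
  rw [Finset.filter_insert, Finset.filter_erase]
  have hup : up 1 c ∉ (S.filter fun y => y.1 = b.1 ∧ b.2 < y.2).erase c := by
    intro h
    rw [Finset.mem_erase, Finset.mem_filter] at h
    exact h2 h.2.1
  by_cases hcb : c = b
  · subst hcb
    rw [if_pos (by simp [up]), Finset.card_insert_of_notMem hup, Finset.erase_eq_of_notMem (by simp)]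
    simp
  · rw [if_neg hcb]
    by_cases h3 : c.1 = b.1 ∧ b.2 < c.2
    · rw [if_pos (by simp only [up]; exact ⟨h3.1, by omega⟩), Finset.card_insert_of_notMem hup,
        Finset.card_erase_of_mem (by simp only [Finset.mem_filter]; exact ⟨h1, h3⟩)]
      have : 0 < (S.filter fun y => y.1 = b.1 ∧ b.2 < y.2).card :=
        Finset.card_pos.mpr ⟨c, by simp only [Finset.mem_filter]; exact ⟨h1, h3⟩⟩
      omega
    · have h4 : ¬ ((up 1 c).1 = b.1 ∧ b.2 < (up 1 c).2) := by
        rintro ⟨h5, h6⟩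
        simp only [up] at h5 h6
        apply hcb
        refine Prod.ext h5 ?_
        by_contra h7
        exact h3 ⟨h5, by omega⟩
      rw [if_neg h4, Finset.erase_eq_of_notMem (by simp only [Finset.mem_filter]; tauto)]
      simp

theorem SURJ_N_path : ∀ (n : ℕ) (S S' : St) (w : List Lab) (b : Lab), w ∈ paths n S S' →
    SURJ_N b S' = SURJ_N b S + w.count b
  | 0, S, S', w, b, h => by rw [SURJ_zero] at h; simp [h.1, h.2]
  | n + 1, S, S', [], b, h => by simp [SURJ_nil_mem] at h
  | n + 1, S, S', l :: w, b, h => by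
      rw [SURJ_cons_mem] at h
      rw [SURJ_N_path n _ _ w b h.2, SURJ_N_move b l S h.1, List.count_cons]
      by_cases hlb : l = b
      · simp [hlb]; ring
      · simp [hlb]

theorem SURJ_swp_cons (c : Lab) (w w' : List Lab) (h : Relation.ReflTransGen Swp w w') :
    Relation.ReflTransGen Swp (c :: w) (c :: w') := by
  induction h with
  | refl => exact Relation.ReflTransGen.refl
  | tail _ h ih =>
      refine ih.tail ?_
      obtain ⟨u, a, b, z, rfl, rfl, h1, h2⟩ := h
      exact ⟨c :: u, a, b, z, rfl, rfl, h1, h2⟩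

/-- bubble a letter to the front -/
theorem SURJ_bubble : ∀ (n : ℕ) (S S' : St) (w : List Lab) (b : Lab), w ∈ paths n S S' →
    b ∈ addable 1 S → b ∈ w → ∃ z, Relation.ReflTransGen Swp w (b :: z)
  | 0, S, S', w, b, h, _, hb => by rw [SURJ_zero] at h; rw [h.1] at hb; simp at hb
  | n + 1, S, S', [], b, h, _, hb => by simp at hb
  | n + 1, S, S', c :: w, b, h, hbS, hb => by
      by_cases hcb : c = b
      · exact ⟨w, hcb ▸ Relation.ReflTransGen.refl⟩
      · rw [SURJ_cons_mem] at h
        have hbw : b ∈ w := by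
          rcases List.mem_cons.mp hb with h' | h'
          · exact absurd h'.symm hcb
          · exact h'
        have hc := h.1
        rw [SURJ_addable] at hc hbS
        have hbm : b ∈ addable 1 (move 1 S c) := by
          rw [SURJ_addable, SURJ_mem_move, SURJ_mem_move, SURJ_up_inj]
          refine ⟨Or.inr ⟨fun h => hcb h.symm, hbS.1⟩, ?_⟩
          rintro (h | ⟨-, h⟩)
          · exact hcb h.symm
          · exact hbS.2 h
        obtain ⟨z, hz⟩ := SURJ_bubble n _ _ w b h.2 hbm hbw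
        refine ⟨c :: z, (SURJ_swp_cons c _ _ hz).tail ⟨[], c, b, z, rfl, rfl, ?_, ?_⟩⟩
        · rintro rfl; exact hc.2 hbS.1
        · rintro rfl; exact hbS.2 hc.1

theorem SURJ_mem_trans (n : ℕ) (S S' : St) (w w' : List Lab) (h : Relation.ReflTransGen Swp w w')
    (hw : w ∈ paths n S S') : w' ∈ paths n S S' := by
  induction h with
  | refl => exact hw
  | tail _ h ih => exact SURJ_swp_mem n S S' _ _ h ih

/-- two words with the same ends are connected by exchanges -/
theorem SURJ_conn : ∀ (n : ℕ) (S S' : St) (w w' : List Lab), w ∈ paths n S S' →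
    w' ∈ paths n S S' → Relation.ReflTransGen Swp w w'
  | 0, S, S', w, w', h, h' => by
      rw [SURJ_zero] at h h'; rw [h.1, h'.1]
  | n + 1, S, S', [], w', h, h' => by simp [SURJ_nil_mem] at h
  | n + 1, S, S', a :: w, [], h, h' => by simp [SURJ_nil_mem] at h'
  | n + 1, S, S', a :: w, b :: w', h, h' => by
      have hcount := (SURJ_N_path _ _ _ _ b h).symm.trans (SURJ_N_path _ _ _ _ b h')
      have hb : b ∈ a :: w := by
        rw [← List.count_pos_iff]
        have : 0 < (b :: w').count b := by simp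
        omega
      have hb' := (SURJ_cons_mem _ _ _ _ _).mp h'
      obtain ⟨z, hz⟩ := SURJ_bubble _ _ _ _ b h hb'.1 hb
      have hmem := (SURJ_cons_mem _ _ _ _ _).mp (SURJ_mem_trans _ _ _ _ _ hz h)
      exact hz.trans (SURJ_swp_cons b _ _ (SURJ_conn n _ _ z w' hmem.2 hb'.2))


/-! ### coefficients -/

section coeff

variable {K : Type*} [Field K] {v : K}

theorem SURJ_xK (hv : v ≠ 0) (m : ℕ) (l : Lab) :
    xK v m l = if l.1 then v ^ (2 * ((l.2 : ℤ) + 1 - m) + 1)
      else -v ^ (2 * ((l.2 : ℤ) + 1 - m) - 1) := by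
  unfold xK
  split_ifs with h
  · rw [zpow_add₀ hv, zpow_one, mul_comm]
  · rw [zpow_sub₀ hv, zpow_one]
    field_simp

theorem SURJ_x_ne (hv : v ≠ 0) (m : ℕ) (l : Lab) : xK v m l ≠ 0 := by
  rw [SURJ_xK hv]
  split_ifs
  · exact zpow_ne_zero _ hv
  · exact neg_ne_zero.mpr (zpow_ne_zero _ hv)

theorem SURJ_x_inj (hg : Generic v) (m : ℕ) (l l' : Lab) (h : xK v m l = xK v m l') : l = l' := by
  obtain ⟨hv, h1, h2⟩ := hg
  have key : ∀ a b : ℤ, v ^ a = v ^ b → a = b := by
    intro a b hab
    by_contra hne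
    apply h2 (a - b) (sub_ne_zero.mpr hne)
    rw [zpow_sub₀ hv, hab, div_self (zpow_ne_zero _ hv)]
  have key2 : ∀ a b : ℤ, v ^ a ≠ -v ^ b := by
    intro a b hab
    apply h1 (a - b)
    rw [zpow_sub₀ hv, hab, neg_div, div_self (zpow_ne_zero _ hv)]
  rw [SURJ_xK hv, SURJ_xK hv] at h
  obtain ⟨b, k⟩ := l
  obtain ⟨b', k'⟩ := l'
  cases b <;> cases b' <;> simp only [if_true, if_false, Bool.false_eq_true, neg_inj] at h
  · have := key _ _ h
    rw [Prod.mk.injEq]; exact ⟨rfl, by omega⟩
  · exact absurd h.symm (key2 _ _)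
  · exact absurd h (key2 _ _)
  · have := key _ _ h
    rw [Prod.mk.injEq]; exact ⟨rfl, by omega⟩

theorem SURJ_x_up (hv : v ≠ 0) (m : ℕ) (l : Lab) : xK v m (up 1 l) = v ^ 2 * xK v m l := by
  unfold xK up
  have : (2 * (((l.2 + 1 : ℕ) : ℤ) + 1 - m)) = 2 * ((l.2 : ℤ) + 1 - m) + 2 := by push_cast; ring
  simp only [this, zpow_add₀ hv]
  norm_cast
  ring

theorem SURJ_cA (hg : Generic v) (m : ℕ) (a b : Lab) (hab : a ≠ b) :
    cA v (xK v m) a b = (v - v⁻¹) * xK v m b / (xK v m b - xK v m a) := by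
  have hb := SURJ_x_ne hg.1 m b
  have h1 : xK v m b - xK v m a ≠ 0 := sub_ne_zero.mpr fun h => hab (SURJ_x_inj hg m _ _ h).symm
  have h2 : 1 - xK v m a / xK v m b ≠ 0 := by
    intro h
    apply h1
    have h3 := (div_eq_one_iff_eq hb).mp (sub_eq_zero.mp h).symm
    rw [h3, sub_self]
  unfold cA
  field_simp

theorem SURJ_cB (hg : Generic v) (m : ℕ) (a b : Lab) (hab : a ≠ b) (h : b ≠ up 1 a) :
    cB v (xK v m) a b = (v * xK v m b - v⁻¹ * xK v m a) / (xK v m b - xK v m a) := by
  have h1 : xK v m b - xK v m a ≠ 0 := sub_ne_zero.mpr fun h => hab (SURJ_x_inj hg m _ _ h).symm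
  have hv := hg.1
  unfold cB
  rw [if_neg h, SURJ_cA hg m a b hab]
  field_simp
  ring

theorem SURJ_cB_zero (hg : Generic v) (m : ℕ) (b : Lab) : cB v (xK v m) (up 1 b) b = 0 := by
  have hv := hg.1
  have h : b ≠ up 1 (up 1 b) := by
    intro h
    have := congrArg Prod.snd h
    simp only [up] at this
    omega
  rw [SURJ_cB hg m _ _ (SURJ_up_ne b) h, SURJ_x_up hv]
  rw [div_eq_zero_iff]
  left
  field_simp
  ring

theorem SURJ_cB_ne (hg : Generic v) (m : ℕ) (a b : Lab) (hab : a ≠ b) (h : b ≠ up 1 a)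
    (h' : a ≠ up 1 b) : cB v (xK v m) a b ≠ 0 := by
  have h1 : xK v m b - xK v m a ≠ 0 := sub_ne_zero.mpr fun h => hab (SURJ_x_inj hg m _ _ h).symm
  have hv := hg.1
  rw [SURJ_cB hg m a b hab h]
  intro h0
  rw [div_eq_zero_iff] at h0
  rcases h0 with h0 | h0
  · apply h'
    apply SURJ_x_inj hg m
    rw [SURJ_x_up hv]
    field_simp at h0
    linear_combination -h0
  · exact h1 h0

theorem SURJ_quad (hg : Generic v) (m : ℕ) (a b : Lab) (hab : a ≠ b) :
    cB v (xK v m) a b * cB v (xK v m) b a =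
      1 + (v - v⁻¹) * cA v (xK v m) a b - cA v (xK v m) a b ^ 2 := by
  have h1 : xK v m b - xK v m a ≠ 0 := sub_ne_zero.mpr fun h => hab (SURJ_x_inj hg m _ _ h).symm
  have h2 : xK v m a - xK v m b ≠ 0 := sub_ne_zero.mpr fun h => hab (SURJ_x_inj hg m _ _ h)
  have hv := hg.1
  have key : 1 + (v - v⁻¹) * cA v (xK v m) a b - cA v (xK v m) a b ^ 2 =
      ((v * xK v m b - v⁻¹ * xK v m a) / (xK v m b - xK v m a)) *
      ((v * xK v m a - v⁻¹ * xK v m b) / (xK v m a - xK v m b)) := by
    rw [SURJ_cA hg m a b hab]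
    have h3 : xK v m a - xK v m b = -(xK v m b - xK v m a) := by ring
    rw [h3]
    field_simp
    ring
  rw [key]
  by_cases h : b = up 1 a
  · subst h
    have e1 : cB v (xK v m) a (up 1 a) = 0 := by simp [cB]
    rw [e1, zero_mul, SURJ_x_up hv]
    have : v * xK v m a - v⁻¹ * (v ^ 2 * xK v m a) = 0 := by field_simp; ring
    rw [this]; simp
  · by_cases h' : a = up 1 b
    · subst h'
      have e1 : cB v (xK v m) b (up 1 b) = 0 := by simp [cB]
      rw [e1, mul_zero, SURJ_x_up hv]
      have : v * xK v m b - v⁻¹ * (v ^ 2 * xK v m b) = 0 := by field_simp; ring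
      rw [this]; simp
    · rw [SURJ_cB hg m a b hab h, SURJ_cB hg m b a hab.symm h']

theorem SURJ_lin (hg : Generic v) (m : ℕ) (a b : Lab) (hab : a ≠ b) :
    cA v (xK v m) a b * xK v m a + cA v (xK v m) b a * xK v m b = 0 := by
  have h1 : xK v m b - xK v m a ≠ 0 := sub_ne_zero.mpr fun h => hab (SURJ_x_inj hg m _ _ h).symm
  rw [SURJ_cA hg m a b hab, SURJ_cA hg m b a hab.symm]
  have h3 : xK v m a - xK v m b = -(xK v m b - xK v m a) := by ring
  rw [h3]
  field_simp
  ring

end coeff

/-! ### operators -/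

section ops

variable {K : Type*} [Field K] {v : K}

theorem SURJ_tw (x : Lab → K) : ∀ (u : List Lab) (a b : Lab) (z : List Lab),
    tw v x u.length (u ++ a :: b :: z) = Finsupp.single (u ++ a :: b :: z) (cA v x a b) +
      Finsupp.single (u ++ b :: a :: z) (cB v x a b)
  | [], a, b, z => by simp [tw]
  | c :: u, a, b, z => by
      simp only [List.length_cons, List.cons_append, tw, SURJ_tw x u a b z, Finsupp.mapDomain_add,
        Finsupp.mapDomain_single]

theorem SURJ_Top (x : Lab → K) (u : List Lab) (a b : Lab) (z : List Lab) (r : K) :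
    Top v x u.length (Finsupp.single (u ++ a :: b :: z) r) =
      Finsupp.single (u ++ a :: b :: z) (r * cA v x a b) +
      Finsupp.single (u ++ b :: a :: z) (r * cB v x a b) := by
  unfold Top
  rw [Finsupp.linearCombination_single, SURJ_tw, smul_add, Finsupp.smul_single, Finsupp.smul_single]
  simp

theorem SURJ_Xop (x : Lab → K) (i : ℕ) (w : List Lab) (r : K) :
    Xop x i (Finsupp.single w r) = Finsupp.single w (r * (w[i]?).elim 0 x) := by
  unfold Xop
  rw [Finsupp.linearCombination_single, Finsupp.smul_single]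
  simp

theorem SURJ_TXT (hg : Generic v) (m : ℕ) (u : List Lab) (a b : Lab) (z : List Lab)
    (hab : a ≠ b) :
    Top v (xK v m) u.length (Xop (xK v m) u.length (Top v (xK v m) u.length
      (Finsupp.single (u ++ a :: b :: z) 1))) =
      Finsupp.single (u ++ a :: b :: z) (xK v m b) := by
  rw [SURJ_Top, map_add, SURJ_Xop, SURJ_Xop, map_add]
  have e1 : ((u ++ a :: b :: z)[u.length]?).elim 0 (xK v m) = xK v m a := by simp
  have e2 : ((u ++ b :: a :: z)[u.length]?).elim 0 (xK v m) = xK v m b := by simp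
  rw [e1, e2, SURJ_Top, SURJ_Top]
  have h1 := SURJ_quad hg m a b hab
  have h2 := SURJ_lin hg m a b hab
  have h1v : xK v m b - xK v m a ≠ 0 := sub_ne_zero.mpr fun h => hab (SURJ_x_inj hg m _ _ h).symm
  have h3 := SURJ_cA hg m a b hab
  have h4 : (v - v⁻¹) * xK v m b = cA v (xK v m) a b * (xK v m b - xK v m a) := by
    rw [h3]; field_simp
  have c1 : 1 * cA v (xK v m) a b * xK v m a * cA v (xK v m) a b +
      1 * cB v (xK v m) a b * xK v m b * cB v (xK v m) b a = xK v m b := by
    linear_combination (xK v m b) * h1 + (cA v (xK v m) a b) * h4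
  have c2 : 1 * cA v (xK v m) a b * xK v m a * cB v (xK v m) a b +
      1 * cB v (xK v m) a b * xK v m b * cA v (xK v m) b a = 0 := by
    linear_combination (cB v (xK v m) a b) * h2
  rw [show ∀ p q r s : List Lab →₀ K, p + q + (r + s) = (p + s) + (q + r) from
    fun p q r s => by abel]
  rw [← Finsupp.single_add, ← Finsupp.single_add, c1, c2, Finsupp.single_zero, add_zero]

/-- matrix of a product -/
theorem SURJ_mat_mul (n : ℕ) (S : St) (φ ψ : Module.End K (List Lab →₀ K))
    (h : ∀ w ∈ allPaths n S, ∀ w', (ψ (Finsupp.single w 1)) w' ≠ 0 → w' ∈ allPaths n S) :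
    mat n S (φ * ψ) = mat n S φ * mat n S ψ := by
  ext w w''
  rw [Matrix.mul_apply]
  unfold mat
  rw [Module.End.mul_apply]
  set f := ψ (Finsupp.single w''.1 1) with hf
  have h1 : f = ∑ w' ∈ allPaths n S, f w' • Finsupp.single w' (1 : K) := by
    have h2 : f = ∑ w' ∈ f.support, f w' • Finsupp.single w' (1 : K) := by
      conv_lhs => rw [← Finsupp.sum_single f]
      simp [Finsupp.sum]
    rw [h2]
    conv_rhs =>
      enter [2, w']
      rw [← h2]
    refine Finset.sum_subset (fun w' hw' => h w''.1 w''.2 w' (Finsupp.mem_support_iff.mp hw')) ?_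
    intro w' _ hw'
    rw [Finsupp.notMem_support_iff.mp hw', zero_smul]
  conv_lhs => rw [h1]
  rw [map_sum, Finsupp.finsetSum_apply, ← Finset.sum_coe_sort]
  refine Finset.sum_congr rfl fun w' _ => ?_
  rw [map_smul, Finsupp.smul_apply, smul_eq_mul, mul_comm]

theorem SURJ_decomp (n : ℕ) (S : St) (w : List Lab) (hw : w ∈ allPaths n S) (i : ℕ)
    (hi : i + 1 < n) : ∃ (u : List Lab) (a b : Lab) (z : List Lab), w = u ++ a :: b :: z ∧
      u.length = i ∧ a ≠ b := by
  obtain ⟨S', hS⟩ := (SURJ_mem_all n S w).mp hw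
  have hl := SURJ_length _ _ _ _ hS
  refine ⟨w.take i, w[i]'(by omega), w[i + 1]'(by omega), w.drop (i + 2), ?_, ?_, ?_⟩
  · have h1 : w.drop i = w[i]'(by omega) :: w.drop (i + 1) := List.drop_eq_getElem_cons (by omega)
    have h2 : w.drop (i + 1) = w[i + 1]'(by omega) :: w.drop (i + 2) :=
      List.drop_eq_getElem_cons (by omega)
    rw [← h2, ← h1, List.take_append_drop]
  · rw [List.length_take]; omega
  · have h1 : w.drop i = w[i]'(by omega) :: w.drop (i + 1) := List.drop_eq_getElem_cons (by omega)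
    have h2 : w.drop (i + 1) = w[i + 1]'(by omega) :: w.drop (i + 2) :=
      List.drop_eq_getElem_cons (by omega)
    apply SURJ_ne (w.take i) n S S' _ _ (w.drop (i + 2))
    rw [← h2, ← h1, List.take_append_drop]
    exact hS

/-- the operators preserve the words -/
theorem SURJ_pres (hg : Generic v) (m n : ℕ) (S : St) (i : ℕ) (hi : i + 1 < n) :
    ∀ w ∈ allPaths n S, ∀ w', (Top v (xK v m) i (Finsupp.single w 1)) w' ≠ 0 →
      w' ∈ allPaths n S := by
  intro w hw w' h
  obtain ⟨u, a, b, z, rfl, rfl, hab⟩ := SURJ_decomp n S w hw i hi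
  rw [SURJ_Top, Finsupp.add_apply] at h
  by_cases h1 : w' = u ++ a :: b :: z
  · rw [h1]; exact hw
  · by_cases h2 : w' = u ++ b :: a :: z
    · rw [h2]
      obtain ⟨S', hS⟩ := (SURJ_mem_all _ _ _).mp hw
      by_cases h3 : b = up 1 a
      · exfalso
        apply h
        subst h3
        rw [Finsupp.single_apply, if_neg (Ne.symm h1)]
        simp [cB]
      · by_cases h4 : a = up 1 b
        · exfalso
          apply h
          subst h4
          rw [SURJ_cB_zero hg, Finsupp.single_apply, if_neg (Ne.symm h1)]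
          simp
        · exact (SURJ_mem_all _ _ _).mpr ⟨S', SURJ_swap u n S S' a b z h3 h4 hS⟩
    · exfalso
      apply h
      rw [Finsupp.single_apply, Finsupp.single_apply, if_neg (Ne.symm h1), if_neg (Ne.symm h2),
        add_zero]

theorem SURJ_presX (x : Lab → K) (n : ℕ) (S : St) (i : ℕ) :
    ∀ w ∈ allPaths n S, ∀ w', (Xop x i (Finsupp.single w 1)) w' ≠ 0 → w' ∈ allPaths n S := by
  intro w hw w' h
  rw [SURJ_Xop, Finsupp.single_apply] at h
  by_cases h1 : w = w'
  · rw [← h1]; exact hw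
  · rw [if_neg h1] at h; exact absurd rfl h

theorem SURJ_matX (x : Lab → K) (n : ℕ) (S : St) (i : ℕ) :
    mat n S (Xop x i) = Matrix.diagonal fun w : allPaths n S => (w.1[i]?).elim 0 x := by
  ext w w'
  unfold mat
  rw [SURJ_Xop, Finsupp.single_apply, Matrix.diagonal_apply, one_mul]
  by_cases h : w = w'
  · subst h; simp
  · rw [if_neg h, if_neg (fun h' => h (Subtype.ext h'.symm))]

theorem SURJ_X_succ (hg : Generic v) (m n : ℕ) (S : St) (i : ℕ) (hi : i + 1 < n) :
    mat n S (Xop (xK v m) (i + 1)) = mat n S (op v m (i + 1)) * mat n S (Xop (xK v m) i) *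
      mat n S (op v m (i + 1)) := by
  have h1 : mat n S (op v m (i + 1) * Xop (xK v m) i * op v m (i + 1)) =
      mat n S (op v m (i + 1)) * mat n S (Xop (xK v m) i) * mat n S (op v m (i + 1)) := by
    rw [SURJ_mat_mul n S (op v m (i + 1) * Xop (xK v m) i) (op v m (i + 1))
      (SURJ_pres hg m n S i hi), SURJ_mat_mul n S _ _ (SURJ_presX _ n S i)]
  rw [← h1]
  ext w w'
  unfold mat
  obtain ⟨u, a, b, z, hw, rfl, hab⟩ := SURJ_decomp n S w'.1 w'.2 i hi
  rw [Module.End.mul_apply, Module.End.mul_apply, hw]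
  have h2 := SURJ_TXT hg m u a b z hab
  simp only [op]
  rw [h2, SURJ_Xop, one_mul]
  have : ((u ++ a :: b :: z)[u.length + 1]?).elim 0 (xK v m) = xK v m b := by
    rw [List.getElem?_append_right (by omega)]
    simp
  rw [this]

/-- diagonal functions in the algebra -/
theorem SURJ_diag (hg : Generic v) (m n : ℕ) (hn : 1 ≤ n) (S : St) : ∀ i < n,
    mat n S (Xop (xK v m) i) ∈ Algebra.adjoin K ((fun i => mat n S (op v m i)) '' {i | i < n})
  | 0, hi => Algebra.subset_adjoin ⟨0, hi, rfl⟩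
  | i + 1, hi => by
      rw [SURJ_X_succ hg m n S i hi]
      have h1 : mat n S (op v m (i + 1)) ∈
        Algebra.adjoin K ((fun i => mat n S (op v m i)) '' {i | i < n}) :=
        Algebra.subset_adjoin ⟨i + 1, hi, rfl⟩
      exact mul_mem (mul_mem h1 (SURJ_diag hg m n hn S i (by omega))) h1

theorem SURJ_single (hg : Generic v) (m n : ℕ) (hn : 1 ≤ n) (S : St) (w : allPaths n S) :
    Matrix.single w w (1 : K) ∈
      Algebra.adjoin K ((fun i => mat n S (op v m i)) '' {i | i < n}) := by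
  classical
  set 𝒜 := Algebra.adjoin K ((fun i => mat n S (op v m i)) '' {i | i < n}) with hA
  set B : Subalgebra K (allPaths n S → K) := 𝒜.comap (Matrix.diagonalAlgHom K) with hB
  have hf : ∀ i < n, (fun w : allPaths n S => (w.1[i]?).elim 0 (xK v m)) ∈ B := by
    intro i hi
    rw [hB, Subalgebra.mem_comap]
    have := SURJ_diag hg m n hn S i hi
    rw [SURJ_matX] at this
    exact this
  have hsep : ∀ w' : allPaths n S, w' ≠ w → ∃ i, i < n ∧
      ((w.1[i]?).elim 0 (xK v m)) - ((w'.1[i]?).elim 0 (xK v m)) ≠ 0 := by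
    intro w' hne
    by_contra hcon
    push Not at hcon
    apply hne
    apply Subtype.ext
    obtain ⟨S₁, h1⟩ := (SURJ_mem_all n S w.1).mp w.2
    obtain ⟨S₂, h2⟩ := (SURJ_mem_all n S w'.1).mp w'.2
    have l1 := SURJ_length _ _ _ _ h1
    have l2 := SURJ_length _ _ _ _ h2
    apply List.ext_getElem (by omega)
    intro i hi hi'
    have h3 := hcon i (by omega)
    rw [sub_eq_zero, List.getElem?_eq_getElem hi, List.getElem?_eq_getElem hi'] at h3
    exact (SURJ_x_inj hg m _ _ h3).symm
  choose! c hc using hsep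
  have hprod : (Pi.single w 1 : allPaths n S → K) = ∏ w' ∈ Finset.univ.erase w,
      ((((w.1[c w']?).elim 0 (xK v m)) - ((w'.1[c w']?).elim 0 (xK v m)))⁻¹ •
        ((fun w : allPaths n S => (w.1[c w']?).elim 0 (xK v m)) -
          algebraMap K (allPaths n S → K) ((w'.1[c w']?).elim 0 (xK v m)))) := by
    funext w''
    rw [Finset.prod_apply]
    by_cases h : w'' = w
    · subst h
      rw [Pi.single_eq_same, eq_comm]
      refine Finset.prod_eq_one fun w' hw' => ?_
      have hne := (hc w' (Finset.ne_of_mem_erase hw')).2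
      simp only [Pi.smul_apply, Pi.sub_apply, Pi.algebraMap_apply, Algebra.algebraMap_self,
        RingHom.id_apply, smul_eq_mul]
      exact inv_mul_cancel₀ hne
    · rw [Pi.single_eq_of_ne h, eq_comm]
      refine Finset.prod_eq_zero (Finset.mem_erase.mpr ⟨h, Finset.mem_univ w''⟩) ?_
      simp
  have hmem : (Pi.single w 1 : allPaths n S → K) ∈ B := by
    rw [hprod]
    refine Subalgebra.prod_mem _ fun w' hw' => ?_
    have h1 := (hc w' (Finset.ne_of_mem_erase hw')).1
    exact Subalgebra.smul_mem _ (sub_mem (hf _ h1) (Subalgebra.algebraMap_mem _ _)) _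
  rw [hB, Subalgebra.mem_comap] at hmem
  have : Matrix.diagonalAlgHom K (Pi.single w 1 : allPaths n S → K) = Matrix.single w w (1 : K) :=
    Matrix.diagonal_single w 1
  rw [this] at hmem
  exact hmem

end ops

theorem SURJ_all {K : Type*} [Field K] {v : K} (hg : Generic v) (m n : ℕ) (hn : 1 ≤ n) (S : St)
    (M : Matrix (allPaths n S) (allPaths n S) K)
    (hM : ∀ w w', (∀ S', ¬ (w.1 ∈ paths n S S' ∧ w'.1 ∈ paths n S S')) → M w w' = 0) :
    M ∈ Algebra.adjoin K ((fun i => mat n S (op v m i)) '' {i | i < n}) := by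
  set 𝒜 := Algebra.adjoin K ((fun i => mat n S (op v m i)) '' {i | i < n}) with hA
  have hE := SURJ_single hg m n hn S
  -- one exchange
  have hswp : ∀ w w' : allPaths n S, Swp w.1 w'.1 → Matrix.single w' w (1 : K) ∈ 𝒜 := by
    rintro w w' ⟨u, a, b, z, hw, hw', h1, h2⟩
    obtain ⟨S', hS⟩ := (SURJ_mem_all n S w.1).mp w.2
    have hl := SURJ_length _ _ _ _ hS
    rw [hw] at hl hS
    have hab := SURJ_ne u n S S' a b z hS
    simp only [List.length_append, List.length_cons] at hl
    have hi : u.length + 1 < n := by omega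
    have hT : mat n S (op v m (u.length + 1)) ∈ 𝒜 :=
      Algebra.subset_adjoin ⟨u.length + 1, hi, rfl⟩
    have hne : u ++ a :: b :: z ≠ u ++ b :: a :: z := by
      intro h
      have := List.append_cancel_left h
      simp only [List.cons.injEq] at this
      exact hab this.1
    have hent : mat n S (op v m (u.length + 1)) w' w = cB v (xK v m) a b := by
      unfold mat
      simp only [op]
      rw [hw, hw', SURJ_Top, Finsupp.add_apply, Finsupp.single_apply, Finsupp.single_apply,
        if_neg hne, if_pos rfl, zero_add, one_mul]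
    have h3 : Matrix.single w' w' (1 : K) * mat n S (op v m (u.length + 1)) *
        Matrix.single w w (1 : K) = Matrix.single w' w (cB v (xK v m) a b) := by
      rw [Matrix.single_mul_mul_single, hent, one_mul, mul_one]
    have h4 : Matrix.single w' w (cB v (xK v m) a b) ∈ 𝒜 := by
      rw [← h3]; exact mul_mem (mul_mem (hE w') hT) (hE w)
    have h5 := Subalgebra.smul_mem _ h4 (cB v (xK v m) a b)⁻¹
    rw [Matrix.smul_single, smul_eq_mul, inv_mul_cancel₀ (SURJ_cB_ne hg m a b hab h1 h2)] at h5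
    exact h5
  -- chains of exchanges
  have hchain : ∀ (S' : St) (w₀ : List Lab) (h₀ : w₀ ∈ paths n S S') (w₁ : List Lab),
      Relation.ReflTransGen Swp w₀ w₁ → ∀ h₁ : w₁ ∈ paths n S S',
      Matrix.single (⟨w₁, (SURJ_mem_all _ _ _).mpr ⟨S', h₁⟩⟩ : allPaths n S)
        (⟨w₀, (SURJ_mem_all _ _ _).mpr ⟨S', h₀⟩⟩ : allPaths n S) (1 : K) ∈ 𝒜 := by
    intro S' w₀ h₀ w₁ h
    induction h with
    | refl => intro h₁; exact hE _
    | tail hh hs ih =>
        intro h₁
        have hmid := SURJ_mem_trans n S S' _ _ hh h₀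
        have h1 := ih hmid
        have h2 := hswp ⟨_, (SURJ_mem_all _ _ _).mpr ⟨S', hmid⟩⟩
          ⟨_, (SURJ_mem_all _ _ _).mpr ⟨S', h₁⟩⟩ hs
        have h3 := mul_mem h2 h1
        rw [Matrix.single_mul_single_same, one_mul] at h3
        exact h3
  rw [Matrix.matrix_eq_sum_single M]
  refine Subalgebra.sum_mem _ fun w _ => Subalgebra.sum_mem _ fun w' _ => ?_
  by_cases h : ∃ S', w.1 ∈ paths n S S' ∧ w'.1 ∈ paths n S S'
  · obtain ⟨S', h1, h2⟩ := h
    have h3 := hchain S' w'.1 h2 w.1 (SURJ_conn n S S' w'.1 w.1 h2 h1) h1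
    have h4 := Subalgebra.smul_mem _ h3 (M w w')
    rw [Matrix.smul_single, smul_eq_mul, mul_one] at h4
    exact h4
  · push Not at h
    rw [hM w w' (fun S' hS => h S' hS.1 hS.2), Matrix.single_zero]
    exact Subalgebra.zero_mem _

/-- the seminormal matrices generate the algebra of all block matrices -/
theorem SURJ : SURJ_stmt := by
  intro K _ v hg n m hn hm M hM
  exact SURJ_all hg m n hn (vac m) M hM

end Pool.Agent.helper27.PC
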